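import Pool.Agent.PFC.StmtsB2

/-!
# Squad PFC, part B2, row SPE (helper46): the special fibre of a lattice
-/

set_option autoImplicit false

noncomputable section

namespace Pool.Agent.PFC.B2.H46

open Pool.Agent.PFC.B1 Pool.Agent.PFC.B2

section fibre

variable {F A' A T' : Type} [Field F] [Ring A'] [Algebra (PowerSeries F) A'] [Ring A]
  [Algebra F A] [AddCommGroup T'] [Module (PowerSeries F) T']

/-- the submodule `X T'` -/
def xT (F T' : Type) [Field F] [AddCommGroup T'] [Module (PowerSeries F) T'] :
    Submodule (PowerSeries F) T' :=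
  LinearMap.range (LinearMap.lsmul (PowerSeries F) T' (PowerSeries.X : PowerSeries F))

theorem mem_xT {x : T'} : x ∈ xT F T' ↔ ∃ y, (PowerSeries.X : PowerSeries F) • y = x := Iff.rfl

/-- the special fibre -/
abbrev sfT (F T' : Type) [Field F] [AddCommGroup T'] [Module (PowerSeries F) T'] : Type :=
  T' ⧸ xT F T'

/-- the structure of an `F`-space -/
@[reducible] def sfM (F T' : Type) [Field F] [AddCommGroup T'] [Module (PowerSeries F) T'] :
    Module F (sfT F T') :=
  Module.compHom (sfT F T') (PowerSeries.C (R := F))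

theorem ps_split (r : PowerSeries F) :
    ∃ s : PowerSeries F, r = PowerSeries.C (PowerSeries.constantCoeff r) + PowerSeries.X * s := by
  have h1 : (PowerSeries.X : PowerSeries F) ∣ r - PowerSeries.C (PowerSeries.constantCoeff r) := by
    rw [PowerSeries.X_dvd_iff, map_sub, PowerSeries.constantCoeff_C, sub_self]
  obtain ⟨s, hs⟩ := h1
  exact ⟨s, by rw [← hs]; ring⟩

attribute [local instance] sfM

theorem sf_smul (r : PowerSeries F) (z : sfT F T') :
    r • z = PowerSeries.constantCoeff r • z := by
  change r • z = (PowerSeries.C (PowerSeries.constantCoeff r) : PowerSeries F) • z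
  obtain ⟨s, hs⟩ := ps_split r
  obtain ⟨x, rfl⟩ := Submodule.mkQ_surjective _ z
  conv_lhs => rw [hs]
  rw [add_smul, mul_smul, ← map_smul, ← map_smul, ← map_smul]
  have h1 : (xT F T').mkQ ((PowerSeries.X : PowerSeries F) • s • x) = 0 := by
    rw [Submodule.mkQ_apply, Submodule.Quotient.mk_eq_zero]
    exact mem_xT.2 ⟨s • x, rfl⟩
  rw [h1, add_zero]

theorem sf_finite [Module.Finite (PowerSeries F) T'] : Module.Finite F (sfT F T') := by
  obtain ⟨s, hs⟩ := (inferInstance : Module.Finite (PowerSeries F) (sfT F T')).fg_top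
  refine ⟨⟨s, ?_⟩⟩
  rw [eq_top_iff]
  rintro z -
  have hz : z ∈ Submodule.span (PowerSeries F) (s : Set (sfT F T')) := by
    rw [hs]
    trivial
  induction hz using Submodule.span_induction with
  | mem x hx => exact Submodule.subset_span hx
  | zero => exact Submodule.zero_mem _
  | add x y _ _ hx hy => exact Submodule.add_mem _ hx hy
  | smul r x _ hx =>
    rw [sf_smul]
    exact Submodule.smul_mem _ _ hx

theorem xT_stable (τ' : Rp (PowerSeries F) A' (PowerSeries F) T') (a : A') :
    xT F T' ≤ (xT F T').comap (τ'.ρ a) := by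
  rintro x hx
  obtain ⟨y, rfl⟩ := mem_xT.1 hx
  rw [Submodule.mem_comap, map_smul]
  exact mem_xT.2 ⟨_, rfl⟩

/-- the action of one element -/
def acE (τ' : Rp (PowerSeries F) A' (PowerSeries F) T') (a : A') : Module.End F (sfT F T') where
  toFun := (xT F T').mapQ (xT F T') (τ'.ρ a) (xT_stable τ' a)
  map_add' := fun x y => map_add _ x y
  map_smul' := fun c x => by
    change ((xT F T').mapQ (xT F T') (τ'.ρ a) (xT_stable τ' a))
      ((PowerSeries.C c : PowerSeries F) • x) = (PowerSeries.C c : PowerSeries F) • _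
    rw [map_smul]

theorem acE_mk (τ' : Rp (PowerSeries F) A' (PowerSeries F) T') (a : A') (x : T') :
    acE τ' a ((xT F T').mkQ x) = (xT F T').mkQ (τ'.ρ a x) := rfl

/-- the action of `A'` on the special fibre -/
def ac (τ' : Rp (PowerSeries F) A' (PowerSeries F) T') : A' →+* Module.End F (sfT F T') where
  toFun := acE τ'
  map_one' := by
    refine LinearMap.ext fun z => ?_
    obtain ⟨x, rfl⟩ := Submodule.mkQ_surjective _ z
    rw [acE_mk, map_one]
    rfl
  map_mul' := fun a b => by
    refine LinearMap.ext fun z => ?_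
    obtain ⟨x, rfl⟩ := Submodule.mkQ_surjective _ z
    rw [acE_mk, map_mul]
    rfl
  map_zero' := by
    refine LinearMap.ext fun z => ?_
    obtain ⟨x, rfl⟩ := Submodule.mkQ_surjective _ z
    rw [acE_mk, map_zero]
    rfl
  map_add' := fun a b => by
    refine LinearMap.ext fun z => ?_
    obtain ⟨x, rfl⟩ := Submodule.mkQ_surjective _ z
    rw [acE_mk, map_add]
    rfl

theorem ac_ker (fb : Fib F A' A) (τ' : Rp (PowerSeries F) A' (PowerSeries F) T') :
    RingHom.ker fb.q ≤ RingHom.ker (ac τ') := by
  intro a ha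
  rw [RingHom.mem_ker] at ha ⊢
  obtain ⟨y, rfl⟩ := fb.ker a ha
  refine LinearMap.ext fun z => ?_
  obtain ⟨x, rfl⟩ := Submodule.mkQ_surjective _ z
  change acE τ' _ _ = 0
  rw [acE_mk, Algebra.smul_def, map_mul]
  change (xT F T').mkQ (τ'.ρ (algebraMap _ _ PowerSeries.X) (τ'.ρ y x)) = 0
  rw [τ'.sc, Submodule.mkQ_apply, Submodule.Quotient.mk_eq_zero]
  exact mem_xT.2 ⟨_, rfl⟩

end fibre

theorem spe : SpeStmt := by
  intro F A' A T' _ _ _ _ _ _ _ _ fb τ'
  letI := sfM F T'
  have hf : Module.Finite F (sfT F T') := sf_finite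
  let g : A →+* Module.End F (sfT F T') :=
    RingHom.liftOfSurjective fb.q fb.surj ⟨ac τ', ac_ker fb τ'⟩
  have hg : ∀ a, g (fb.q a) = ac τ' a := fun a =>
    RingHom.liftOfRightInverse_comp_apply fb.q _ (Function.rightInverse_surjInv fb.surj)
      ⟨ac τ', ac_ker fb τ'⟩ a
  let τ0 : Rp F A F (sfT F T') :=
    { ρ := g
      sc := fun r z => by
        obtain ⟨x, rfl⟩ := Submodule.mkQ_surjective _ z
        have h1 : algebraMap F A r = fb.q (algebraMap (PowerSeries F) A' (PowerSeries.C r)) := by
          rw [fb.sc, PowerSeries.constantCoeff_C]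
        rw [h1, hg]
        change acE τ' _ _ = _
        rw [acE_mk, τ'.sc, Algebra.algebraMap_self, RingHom.id_apply, map_smul]
        rfl }
  refine ⟨sfT F T', inferInstance, inferInstance, hf, τ0, ⟨?_⟩⟩
  exact
    { p := (xT F T').mkQ.toAddMonoidHom
      sur := Submodule.mkQ_surjective _
      sm := fun r x => by
        change (xT F T').mkQ (r • x) = _
        rw [map_smul, sf_smul]
        rfl
      ker := fun x hx => by
        have h1 : x ∈ xT F T' := by
          rw [← Submodule.Quotient.mk_eq_zero]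
          exact hx
        obtain ⟨y, hy⟩ := mem_xT.1 h1
        exact ⟨y, hy.symm⟩
      eqv := fun a x => by
        change (xT F T').mkQ (τ'.ρ a x) = g (fb.q a) ((xT F T').mkQ x)
        rw [hg]
        rfl }

end Pool.Agent.PFC.B2.H46
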